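import Pool.Agent.Run7.h340.KF.GAP

/-! Piece CMB of project KF (helper523), by helper340. -/

set_option autoImplicit false
set_option linter.unusedSectionVars false

namespace Run7.h340.KF

open Run7.h523.KF MeasureTheory Set Filter Topology
open scoped ENNReal

theorem sb_sb (j : ℕ) (z : ℤ) : sb j (sb j z) = z := by
  unfold sb; split_ifs <;> omega

theorem sx_sx {P : Type} (j : ℕ) (x : P → ℤ) : sx j (sx j x) = x := by
  funext v; exact sb_sb j _

theorem lvl (j : ℕ) (z : ℤ) : (|sb j z| = 2 * j - 1 ∨ |sb j z| = 2 * j + 1) ↔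
    (|z| = 2 * j - 1 ∨ |z| = 2 * j + 1) := by
  have h1 := abs_cases (sb j z)
  have h2 := abs_cases z
  revert h1
  unfold sb
  split_ifs <;> intro h1 <;> omega

theorem two_lvl (n : ℕ) (z : ℤ) (g : ℝ) (hg : 0 ≤ g) :
    ∑ j ∈ Finset.range n, (if |z| = 2 * (j : ℤ) - 1 ∨ |z| = 2 * j + 1 then g else 0) ≤ 2 * g := by
  rw [← Finset.sum_filter, Finset.sum_const, nsmul_eq_mul]
  refine mul_le_mul_of_nonneg_right ?_ hg
  have hsub : (Finset.range n).filter (fun j : ℕ => |z| = 2 * (j : ℤ) - 1 ∨ |z| = 2 * j + 1) ⊆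
      {(|z| / 2).toNat, (|z| / 2).toNat + 1} := by
    intro j hj
    rw [Finset.mem_filter] at hj
    have h0 : 0 ≤ |z| := abs_nonneg z
    rw [Finset.mem_insert, Finset.mem_singleton]
    rcases hj.2 with h | h
    · right; omega
    · left; omega
  have := (Finset.card_le_card hsub).trans Finset.card_le_two
  exact_mod_cast this

section
variable {P : Type} [Fintype P] [DecidableEq P]

theorem bd_int {ρ : (P → ℝ) → ℝ} (h : Sy1 ρ) (g : (P → ℝ) → ℝ) (hg : Measurable g) (C : ℝ)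
    (hC : ∀ y, |g y| ≤ C) : Integrable (fun y => g y * ρ y) := by
  refine Integrable.mono' ((sy_int h).const_mul C) (hg.mul h.meas).aestronglyMeasurable
    (Eventually.of_forall fun y => ?_)
  rw [Real.norm_eq_abs, abs_mul, abs_of_nonneg (h.nonneg y)]
  exact mul_le_mul_of_nonneg_right (hC y) (h.nonneg y)

theorem cone (hCH0 : S_CH0) (R : P × Bool → P × Bool → Prop) (g : (P → ℝ) → ℝ)
    (hg : Integrable g) :
    ∫ y in KC R, g y = ∑ x ∈ Om R (Fintype.card P), ∫ y in Ch x, g y := by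
  obtain ⟨hop, hdisj, hnull, hR, _⟩ := hCH0 P
  obtain ⟨hsub, hin, hout⟩ := hR R
  have h1 : (⋃ x ∈ Om R (Fintype.card P), Ch x) ⊆ KC R := iUnion₂_subset hin
  have h2 : KC R \ (⋃ x ∈ Om R (Fintype.card P), Ch x) ⊆ (⋃ x ∈ XX P, Ch x)ᶜ := by
    rintro y ⟨hy, hy2⟩ hy3
    obtain ⟨x, hx, hyx⟩ := mem_iUnion₂.1 hy3
    by_cases hxO : x ∈ Om R (Fintype.card P)
    · exact hy2 (mem_iUnion₂.2 ⟨x, hxO, hyx⟩)
    · exact Set.disjoint_left.1 (hout x hx hxO) hyx hy
  have hae : KC R =ᵐ[volume] (⋃ x ∈ Om R (Fintype.card P), Ch x : Set (P → ℝ)) := by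
    refine (ae_eq_set).2 ⟨measure_mono_null h2 hnull, ?_⟩
    rw [Set.sdiff_eq_empty.2 h1, measure_empty]
  rw [setIntegral_congr_set hae, integral_biUnion_finset]
  · exact fun x hx => (hop x (hsub hx)).measurableSet
  · intro x hx x' hx' hne
    exact hdisj x (hsub hx) x' (hsub hx') hne
  · exact fun x _ => hg.integrableOn

end

theorem inv_sum {α : Type} [DecidableEq α] (O : Finset α) (s : α → α) (hs : ∀ x, s (s x) = x)
    (g : α → ℝ) (hg : ∀ x ∈ O, 0 ≤ g x) :
    ∑ x ∈ O.filter (fun x => s x ∈ O), (g x + g (s x)) ≤ 2 * ∑ x ∈ O, g x := by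
  rw [Finset.sum_add_distrib, two_mul]
  refine add_le_add ?_ ?_
  · exact Finset.sum_le_sum_of_subset_of_nonneg (Finset.filter_subset _ _) fun x hx _ => hg x hx
  · have hinj : Set.InjOn s (O.filter (fun x => s x ∈ O) : Finset α) := by
      intro a _ b _ hab
      rw [← hs a, ← hs b, hab]
    rw [← Finset.sum_image (f := g) hinj]
    refine Finset.sum_le_sum_of_subset_of_nonneg ?_ fun x hx _ => hg x hx
    intro y hy
    obtain ⟨x, hx, rfl⟩ := Finset.mem_image.1 hy
    exact (Finset.mem_filter.1 hx).2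

theorem sup_one (hSUP2 : S_SUP2) (n : ℕ) (hn : 1 ≤ n) :
    Sup n (fun j => (1 - ((j : ℝ) / n) ^ 2) ^ 2)
      (fun j => Real.sqrt (1 - ((j : ℝ) / n) ^ 2)) (1 / (2 * (n : ℝ) ^ 2)) := by
  rcases Nat.lt_or_ge 1 n with h | h
  · exact hSUP2 n h
  · have h1 : n = 1 := le_antisymm h hn
    subst h1
    refine ⟨?_, ?_, ?_, ?_, ?_⟩
    · intro j hj
      have : j = 0 := by omega
      subst this
      norm_num
    · intro j hj
      have : j = 0 := by omega
      subst this
      norm_num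
    · exact Real.sqrt_nonneg _
    · norm_num
    · intro j hj; omega

theorem t_CMB (hDISC : S_DISC) (hSUP2 : S_SUP2) (hCH0 : S_CH0) (hSPM : S_SPM) (hRF : S_RF)
    (hBND : S_BND) (hGAP : S_GAP) : ∀ K : ℝ, S_CHP K → S_CMB K := by
  intro K hCHP P _ _ _ R ρ s C f hρ hs hm hf hZ
  classical
  obtain ⟨hop, hdisj, hnull, hR, _⟩ := hCH0 P
  obtain ⟨hsub, _, _⟩ := hR R
  have hn1 : 1 ≤ Fintype.card P := Fintype.card_pos
  have hn0 : (0 : ℝ) < Fintype.card P := by exact_mod_cast hn1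
  -- measurability and integrability
  have hfm : Measurable f := hf.cd.continuous.measurable
  have hdc : ∀ v : P, Measurable fun y : P → ℝ => (fderiv ℝ f y (Pi.single v 1)) ^ 2 := fun v =>
    (((hf.cd.continuous_fderiv one_ne_zero).clm_apply continuous_const).pow 2).measurable
  have hdb : ∀ (v : P) (y : P → ℝ), |(fderiv ℝ f y (Pi.single v 1)) ^ 2| ≤ C ^ 2 := by
    intro v y
    rw [abs_of_nonneg (sq_nonneg _), ← sq_abs]
    exact pow_le_pow_left₀ (abs_nonneg _) (hf.db y v) 2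
  have hdi : ∀ v : P, Integrable fun y : P → ℝ =>
      (fderiv ℝ f y (Pi.single v 1)) ^ 2 * ρ y := fun v => bd_int hρ _ (hdc v) _ (hdb v)
  have hfi : Integrable fun y : P → ℝ => f y * ρ y := bd_int hρ f hfm C hf.bd
  have hf2i : Integrable fun y : P → ℝ => f y ^ 2 * ρ y :=
    bd_int hρ _ (hfm.pow_const 2) (C ^ 2) fun y => by
      rw [abs_of_nonneg (sq_nonneg _), ← sq_abs]
      exact pow_le_pow_left₀ (abs_nonneg _) (hf.bd y) 2
  have hgi : Integrable fun y : P → ℝ => gr f y * ρ y := by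
    have e : (fun y : P → ℝ => gr f y * ρ y) =
        fun y : P → ℝ => ∑ v, (fderiv ℝ f y (Pi.single v 1)) ^ 2 * ρ y := by
      funext y; unfold gr; rw [Finset.sum_mul]
    rw [e]; exact integrable_finsetSum _ fun v _ => hdi v
  have hρi := sy_int hρ
  -- masses
  have hmass : ∀ x ∈ XX P, ((XX P).card : ℝ) * ∫ y in Ch x, ρ y = 1 := by
    intro x hx
    have h := spm_real hSPM hρ (fun _ => 1) (fun _ => zero_le_one) measurable_const
      (fun _ _ _ _ => rfl) x hx
    simp only [one_mul] at h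
    rw [h, sy_one hρ]
  rw [cone hCH0 R _ hf2i, cone hCH0 R _ hfi, cone hCH0 R _ hρi, cone hCH0 R _ hgi]
  rw [cone hCH0 R _ hρi] at hZ
  set O := Om R (Fintype.card P) with hO
  have hOne : O.Nonempty := by
    by_contra h
    rw [Finset.not_nonempty_iff_eq_empty] at h
    rw [h, Finset.sum_empty] at hZ
    exact lt_irrefl _ hZ
  obtain ⟨x₀, hx₀⟩ := hOne
  have hN : 0 < ((XX P).card : ℝ) := by exact_mod_cast Finset.card_pos.2 ⟨x₀, hsub hx₀⟩
  have hOc : (0 : ℝ) < O.card := by exact_mod_cast Finset.card_pos.2 ⟨x₀, hx₀⟩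
  have hZe : ∑ x ∈ O, ∫ y in Ch x, ρ y = O.card / (XX P).card := by
    have : ∀ x ∈ O, ∫ y in Ch x, ρ y = 1 / (XX P).card := by
      intro x hx
      rw [eq_div_iff hN.ne', mul_comm]
      exact hmass x (hsub hx)
    rw [Finset.sum_congr rfl this, Finset.sum_const, nsmul_eq_mul]
    ring
  -- energies
  let e : ℕ → (P → ℤ) → ℝ := fun j x => ∫ y in Ch x,
    (∑ v, if |x v| = 2 * j - 1 ∨ |x v| = 2 * j + 1 then
      (fderiv ℝ f y (Pi.single v 1)) ^ 2 else 0) * ρ y
  have he0 : ∀ j x, 0 ≤ e j x := fun j x => integral_nonneg fun y =>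
    mul_nonneg (Finset.sum_nonneg fun v _ => by split_ifs <;> positivity) (hρ.nonneg y)
  have hei : ∀ (j : ℕ) (x : P → ℤ), Integrable fun y : P → ℝ =>
      (∑ v, if |x v| = 2 * (j : ℤ) - 1 ∨ |x v| = 2 * j + 1 then
      (fderiv ℝ f y (Pi.single v 1)) ^ 2 else 0) * ρ y := by
    intro j x
    have e : (fun y : P → ℝ => (∑ v, if |x v| = 2 * (j : ℤ) - 1 ∨ |x v| = 2 * j + 1 then
      (fderiv ℝ f y (Pi.single v 1)) ^ 2 else 0) * ρ y) = fun y : P → ℝ =>
        ∑ v, (if |x v| = 2 * (j : ℤ) - 1 ∨ |x v| = 2 * j + 1 then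
      (fderiv ℝ f y (Pi.single v 1)) ^ 2 else 0) * ρ y := by
      funext y; rw [Finset.sum_mul]
    rw [e]
    refine integrable_finsetSum _ fun v _ => ?_
    split_ifs
    · exact hdi v
    · simp
  have hesum : ∀ x ∈ O, ∑ j ∈ Finset.range (Fintype.card P), e j x ≤
      2 * ∫ y in Ch x, gr f y * ρ y := by
    intro x hx
    show ∑ j ∈ Finset.range (Fintype.card P), ∫ y in Ch x, _ ≤ _
    rw [← integral_finsetSum _ fun j _ => (hei j x).integrableOn, ← integral_const_mul]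
    refine setIntegral_mono (integrable_finsetSum _ fun j _ => (hei j x).integrableOn)
      (hgi.const_mul 2).integrableOn fun y => ?_
    dsimp only
    rw [← Finset.sum_mul, ← mul_assoc]
    refine mul_le_mul_of_nonneg_right ?_ (hρ.nonneg y)
    rw [Finset.sum_comm]
    unfold gr
    rw [Finset.mul_sum]
    exact Finset.sum_le_sum fun v _ => two_lvl _ _ _ (sq_nonneg _)
  -- one bond
  have hbond : ∀ j, j < Fintype.card P → ∀ x ∈ O,
      (D R (Fintype.card P) (fun x => ∫ y in Ch x, f y * ρ y) j x) ^ 2 ≤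
        if sx j x ∈ O then 2048 * s / ((XX P).card * ((Fintype.card P : ℝ) - j) ^ 2) *
          (e j x + e j (sx j x)) else 0 := by
    intro j hj x hx
    have hnj : (0 : ℝ) < (Fintype.card P : ℝ) - j := by
      have : (j : ℝ) < Fintype.card P := by exact_mod_cast hj
      linarith
    unfold D
    by_cases hsxO : sx j x ∈ O
    · rw [if_pos ⟨hx, hsxO⟩, if_pos hsxO]
      have h1 := hBND P ρ s C f x j hρ hm hf (hsub hx) hj
      obtain ⟨_, _, _, _, _, _, _, _, hsum, _, _⟩ := hRF P x j (hsub hx) hj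
      have hq0 : 0 ≤ qq ρ x j j := integral_nonneg fun y =>
        mul_nonneg (mul_self_nonneg _) (hρ.nonneg y)
      have h2 : ∫ y in Ch x, (1 / 4 * ∑ v, (y v - rf x j y v) ^ 2) * ρ y ≤ qq ρ x j j := by
        by_cases hj0 : j = 0
        · have e1 : (fun y : P → ℝ => (1 / 4 * ∑ v, (y v - rf x j y v) ^ 2) * ρ y) =
              fun y : P → ℝ => gp x y j * gp x y j * ρ y := by
            funext y
            rw [hsum y, if_pos hj0, hj0]
            ring
          rw [e1]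
          exact le_rfl
        · have e1 : (fun y : P → ℝ => (1 / 4 * ∑ v, (y v - rf x j y v) ^ 2) * ρ y) =
              fun y : P → ℝ => (1 / 2) * (gp x y j * gp x y j * ρ y) := by
            funext y
            rw [hsum y, if_neg hj0]
            ring
          rw [e1, integral_const_mul]
          change 1 / 2 * qq ρ x j j ≤ qq ρ x j j
          linarith
      have h3 := h2.trans (hGAP P ρ s x j hρ hs.le hm (hsub hx) hj)
      have e2 : (∫ y in Ch (sx j x), (∑ v, if |x v| = 2 * (j : ℤ) - 1 ∨ |x v| = 2 * j + 1 then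
            (fderiv ℝ f y (Pi.single v 1)) ^ 2 else 0) * ρ y) = e j (sx j x) := by
        have hl : ∀ v, (|sx j x v| = 2 * (j : ℤ) - 1 ∨ |sx j x v| = 2 * j + 1) ↔
            (|x v| = 2 * (j : ℤ) - 1 ∨ |x v| = 2 * j + 1) := fun v => lvl j (x v)
        show _ = ∫ y in Ch (sx j x), (∑ v, if |sx j x v| = 2 * (j : ℤ) - 1 ∨
          |sx j x v| = 2 * j + 1 then (fderiv ℝ f y (Pi.single v 1)) ^ 2 else 0) * ρ y
        simp only [hl]
      rw [e2] at h1
      change _ ≤ 8 * _ * (e j x + e j (sx j x)) at h1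
      refine h1.trans ?_
      have hee : 0 ≤ e j x + e j (sx j x) := add_nonneg (he0 _ _) (he0 _ _)
      refine mul_le_mul_of_nonneg_right ?_ hee
      calc 8 * ∫ y in Ch x, (1 / 4 * ∑ v, (y v - rf x j y v) ^ 2) * ρ y
          ≤ 8 * (256 * s / ((XX P).card * ((Fintype.card P : ℝ) - j) ^ 2)) :=
            mul_le_mul_of_nonneg_left h3 (by norm_num)
        _ = 2048 * s / ((XX P).card * ((Fintype.card P : ℝ) - j) ^ 2) := by ring
    · rw [if_neg fun h => hsxO h.2, if_neg hsxO]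
      norm_num
  have hbond2 : ∀ j, j < Fintype.card P →
      (1 - ((j : ℝ) / Fintype.card P) ^ 2) ^ 2 *
        ∑ x ∈ O, (D R (Fintype.card P) (fun x => ∫ y in Ch x, f y * ρ y) j x) ^ 2 ≤
        16384 * s / ((XX P).card * (Fintype.card P : ℝ) ^ 2) * ∑ x ∈ O, e j x := by
    intro j hj
    have hjn : (j : ℝ) < Fintype.card P := by exact_mod_cast hj
    have hnj : (0 : ℝ) < (Fintype.card P : ℝ) - j := by linarith
    have hj0 : (0 : ℝ) ≤ j := Nat.cast_nonneg j
    have hB : 0 ≤ 2048 * s / ((XX P).card * ((Fintype.card P : ℝ) - j) ^ 2) := by positivity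
    have h1 : ∑ x ∈ O, (D R (Fintype.card P) (fun x => ∫ y in Ch x, f y * ρ y) j x) ^ 2 ≤
        2048 * s / ((XX P).card * ((Fintype.card P : ℝ) - j) ^ 2) * (2 * ∑ x ∈ O, e j x) := by
      refine (Finset.sum_le_sum (hbond j hj)).trans ?_
      rw [← Finset.sum_filter, ← Finset.mul_sum]
      exact mul_le_mul_of_nonneg_left (inv_sum O (sx j) (sx_sx j) (e j) fun x _ => he0 j x) hB
    have hc : (1 - ((j : ℝ) / Fintype.card P) ^ 2) ^ 2 ≤
        4 * ((Fintype.card P : ℝ) - j) ^ 2 / (Fintype.card P : ℝ) ^ 2 := by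
      have e3 : 1 - ((j : ℝ) / Fintype.card P) ^ 2 =
          (((Fintype.card P : ℝ) - j) / Fintype.card P) * (1 + (j : ℝ) / Fintype.card P) := by
        field_simp
        ring
      have e4 : 4 * ((Fintype.card P : ℝ) - j) ^ 2 / (Fintype.card P : ℝ) ^ 2 =
          (((Fintype.card P : ℝ) - j) / Fintype.card P) ^ 2 * 2 ^ 2 := by
        rw [div_pow]; ring
      rw [e3, e4, mul_pow]
      refine mul_le_mul_of_nonneg_left ?_ (sq_nonneg _)
      have : (j : ℝ) / Fintype.card P ≤ 1 := (div_le_one hn0).2 hjn.le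
      have h0 : (0 : ℝ) ≤ (j : ℝ) / Fintype.card P := by positivity
      exact pow_le_pow_left₀ (by linarith) (by linarith) 2
    have hE : 0 ≤ ∑ x ∈ O, e j x := Finset.sum_nonneg fun x _ => he0 j x
    calc (1 - ((j : ℝ) / Fintype.card P) ^ 2) ^ 2 *
        ∑ x ∈ O, (D R (Fintype.card P) (fun x => ∫ y in Ch x, f y * ρ y) j x) ^ 2
        ≤ (4 * ((Fintype.card P : ℝ) - j) ^ 2 / (Fintype.card P : ℝ) ^ 2) *
          (2048 * s / ((XX P).card * ((Fintype.card P : ℝ) - j) ^ 2) * (2 * ∑ x ∈ O, e j x)) :=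
          mul_le_mul hc h1 (Finset.sum_nonneg fun x _ => sq_nonneg _) (by positivity)
      _ = 16384 * s / ((XX P).card * (Fintype.card P : ℝ) ^ 2) * ∑ x ∈ O, e j x := by
          field_simp
          ring
  -- the discrete inequality
  have hdisc := hDISC P R (Fintype.card P) _ _ _ (by positivity) (sup_one hSUP2 _ hn1)
    ⟨x₀, hx₀⟩ (fun x => ∫ y in Ch x, f y * ρ y)
  have hsecond : ((XX P).card : ℝ) * (∑ x ∈ O, (∫ y in Ch x, f y * ρ y) ^ 2 -
      (∑ x ∈ O, ∫ y in Ch x, f y * ρ y) ^ 2 / O.card) ≤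
      2 ^ 14 * s * ∑ x ∈ O, ∫ y in Ch x, gr f y * ρ y := by
    have h1 : ∑ j ∈ Finset.range (Fintype.card P), (1 - ((j : ℝ) / Fintype.card P) ^ 2) ^ 2 *
        ∑ x ∈ O, (D R (Fintype.card P) (fun x => ∫ y in Ch x, f y * ρ y) j x) ^ 2 ≤
        16384 * s / ((XX P).card * (Fintype.card P : ℝ) ^ 2) *
          (2 * ∑ x ∈ O, ∫ y in Ch x, gr f y * ρ y) := by
      refine (Finset.sum_le_sum fun j hj => hbond2 j (Finset.mem_range.1 hj)).trans ?_
      rw [← Finset.mul_sum, Finset.sum_comm, Finset.mul_sum _ _ (2 : ℝ)]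
      exact mul_le_mul_of_nonneg_left (Finset.sum_le_sum hesum) (by positivity)
    have h2 := hdisc.trans (mul_le_mul_of_nonneg_left h1 (by positivity))
    refine (mul_le_mul_of_nonneg_left h2 hN.le).trans (le_of_eq ?_)
    field_simp
    ring
  have hfirst : ∑ x ∈ O, ((∫ y in Ch x, f y ^ 2 * ρ y) -
      (XX P).card * (∫ y in Ch x, f y * ρ y) ^ 2) ≤
      K * s * ∑ x ∈ O, ∫ y in Ch x, gr f y * ρ y := by
    rw [Finset.mul_sum]
    exact Finset.sum_le_sum fun x hx => hCHP P ρ s C f x hρ hs hm hf (hsub hx)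
  rw [hZe]
  rw [Finset.sum_sub_distrib, ← Finset.mul_sum] at hfirst
  have e5 : (∑ x ∈ O, ∫ y in Ch x, f y * ρ y) ^ 2 / ((O.card : ℝ) / (XX P).card) =
      (XX P).card * ((∑ x ∈ O, ∫ y in Ch x, f y * ρ y) ^ 2 / O.card) := by
    field_simp
  rw [e5]
  nlinarith [hfirst, hsecond]

end Run7.h340.KF
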