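import Pool.Agent.Run7.h523.KF.Iface3

/-! Piece GAP of project KF (helper523), by helper340. -/

set_option autoImplicit false
set_option linter.unusedSectionVars false

namespace Run7.h340.KF

open Run7.h523.KF MeasureTheory Set Filter Topology
open scoped ENNReal

theorem cs {α : Type} [MeasurableSpace α] (μ : Measure α) (A B ρ : α → ℝ) (hρ : ∀ x, 0 ≤ ρ x)
    (h1 : Integrable (fun x => A x ^ 2 * ρ x) μ) (h2 : Integrable (fun x => B x ^ 2 * ρ x) μ)
    (h3 : Integrable (fun x => A x * B x * ρ x) μ) :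
    (∫ x, A x * B x * ρ x ∂μ) ^ 2 ≤ (∫ x, A x ^ 2 * ρ x ∂μ) * ∫ x, B x ^ 2 * ρ x ∂μ := by
  have h : ∀ t : ℝ, 0 ≤ (∫ x, B x ^ 2 * ρ x ∂μ) * (t * t) +
      (2 * ∫ x, A x * B x * ρ x ∂μ) * t + ∫ x, A x ^ 2 * ρ x ∂μ := by
    intro t
    have h0 : 0 ≤ ∫ x, (A x + t * B x) ^ 2 * ρ x ∂μ :=
      integral_nonneg (fun x => mul_nonneg (sq_nonneg _) (hρ x))
    have e : ∫ x, (A x + t * B x) ^ 2 * ρ x ∂μ = (∫ x, A x ^ 2 * ρ x ∂μ) +
        (2 * t) * (∫ x, A x * B x * ρ x ∂μ) + (t * t) * ∫ x, B x ^ 2 * ρ x ∂μ := by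
      have e1 : (fun x => (A x + t * B x) ^ 2 * ρ x) =
          fun x => A x ^ 2 * ρ x + (2 * t) * (A x * B x * ρ x) + (t * t) * (B x ^ 2 * ρ x) := by
        funext x; ring
      have h12 : Integrable (fun x => A x ^ 2 * ρ x + (2 * t) * (A x * B x * ρ x)) μ :=
        h1.add (h3.const_mul _)
      rw [e1, integral_add h12 (h2.const_mul _),
        integral_add h1 (h3.const_mul _), integral_const_mul, integral_const_mul]
    rw [e] at h0
    linarith
  have h4 := discrim_le_zero h
  unfold discrim at h4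
  nlinarith [h4]

theorem abel (u : ℕ → ℝ) (h0 : u 0 = 0) (n : ℕ) :
    ∑ k ∈ Finset.range n, ((n : ℝ) - k) * (u (k + 1) - u k) = ∑ i ∈ Finset.range n, u (i + 1) := by
  induction n with
  | zero => simp
  | succ n ih =>
    rw [Finset.sum_range_succ, Finset.sum_range_succ (fun i => u (i + 1)), ← ih]
    have e : ∑ k ∈ Finset.range n, (((n + 1 : ℕ) : ℝ) - k) * (u (k + 1) - u k) =
        ∑ k ∈ Finset.range n, ((n : ℝ) - k) * (u (k + 1) - u k) +
          ∑ k ∈ Finset.range n, (u (k + 1) - u k) := by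
      rw [← Finset.sum_add_distrib]
      refine Finset.sum_congr rfl fun k _ => ?_
      push_cast; ring
    rw [e, Finset.sum_range_sub, h0]
    push_cast; ring

section
variable {P : Type} [Fintype P] [DecidableEq P]

theorem sy_int {ρ : (P → ℝ) → ℝ} (h : Sy1 ρ) : Integrable ρ := by
  refine ⟨h.meas.aestronglyMeasurable, ?_⟩
  rw [hasFiniteIntegral_iff_ofReal (Eventually.of_forall h.nonneg), h.mass]
  exact ENNReal.one_lt_top

theorem sy_one {ρ : (P → ℝ) → ℝ} (h : Sy1 ρ) : ∫ x, ρ x = 1 := by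
  rw [integral_eq_lintegral_of_nonneg_ae (Eventually.of_forall h.nonneg)
    h.meas.aestronglyMeasurable, h.mass]
  simp

theorem sq_int {ρ : (P → ℝ) → ℝ} {s : ℝ} (h : Sy1 ρ) (hm : Mom2 ρ s) (v : P) :
    Integrable (fun x : P → ℝ => x v ^ 2 * ρ x) := by
  refine ⟨(((measurable_pi_apply v).pow_const 2).mul h.meas).aestronglyMeasurable, ?_⟩
  rw [hasFiniteIntegral_iff_ofReal
    (Eventually.of_forall fun x => mul_nonneg (sq_nonneg _) (h.nonneg x))]
  exact lt_of_le_of_lt (hm v) ENNReal.ofReal_lt_top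

theorem sq_le {ρ : (P → ℝ) → ℝ} {s : ℝ} (h : Sy1 ρ) (hs : 0 ≤ s) (hm : Mom2 ρ s) (v : P) :
    ∫ x : P → ℝ, x v ^ 2 * ρ x ≤ s := by
  rw [integral_eq_lintegral_of_nonneg_ae
    (Eventually.of_forall fun x => mul_nonneg (sq_nonneg _) (h.nonneg x))
    (((measurable_pi_apply v).pow_const 2).mul h.meas).aestronglyMeasurable]
  calc (∫⁻ x : P → ℝ, ENNReal.ofReal (x v ^ 2 * ρ x)).toReal ≤ (ENNReal.ofReal s).toReal :=
        ENNReal.toReal_mono ENNReal.ofReal_ne_top (hm v)
    _ = s := ENNReal.toReal_ofReal hs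

theorem spm_real (hSPM : S_SPM) {ρ : (P → ℝ) → ℝ} (hρ : Sy1 ρ) (Φ : (P → ℝ) → ℝ)
    (h0 : ∀ y, 0 ≤ Φ y) (hmeas : Measurable Φ)
    (hinv : ∀ (σ : Equiv.Perm P) (x y : P → ℝ), (∀ i, |y i| = |x (σ i)|) → Φ y = Φ x)
    (x : P → ℤ) (hx : x ∈ XX P) :
    ((XX P).card : ℝ) * ∫ y in Ch x, Φ y * ρ y = ∫ y, Φ y * ρ y := by
  have h := (hSPM P).2 ρ hρ (fun y => ENNReal.ofReal (Φ y)) hmeas.ennreal_ofReal
    (fun σ x y h => by rw [hinv σ x y h]) x hx
  have e : ∀ y, ENNReal.ofReal (Φ y) * ENNReal.ofReal (ρ y) = ENNReal.ofReal (Φ y * ρ y) :=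
    fun y => (ENNReal.ofReal_mul (h0 y)).symm
  simp only [e] at h
  rw [integral_eq_lintegral_of_nonneg_ae
      (Eventually.of_forall fun y => mul_nonneg (h0 y) (hρ.nonneg y))
      (hmeas.mul hρ.meas).aestronglyMeasurable,
    integral_eq_lintegral_of_nonneg_ae
      (Eventually.of_forall fun y => mul_nonneg (h0 y) (hρ.nonneg y))
      (hmeas.mul hρ.meas).aestronglyMeasurable, ← h, ENNReal.toReal_mul]
  simp

variable [Nonempty P]

theorem uu_sq_le (x : P → ℤ) (y : P → ℝ) (i : ℕ) : uu x y i ^ 2 ≤ ∑ v, y v ^ 2 := by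
  have h : ∀ v, y v ^ 2 ≤ ∑ v, y v ^ 2 := fun v =>
    Finset.single_le_sum (f := fun v => y v ^ 2) (fun v _ => sq_nonneg (y v)) (Finset.mem_univ v)
  unfold uu sv
  split_ifs
  · simpa using Finset.sum_nonneg (fun v (_ : v ∈ Finset.univ) => sq_nonneg (y v))
  · exact h _
  · rw [neg_sq]; exact h _

theorem uu_meas (x : P → ℤ) (i : ℕ) : Measurable (fun y : P → ℝ => uu x y i) := by
  unfold uu sv
  split_ifs
  · exact measurable_const
  · exact measurable_pi_apply _
  · exact (measurable_pi_apply _).neg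

theorem gp_meas (x : P → ℤ) (i : ℕ) : Measurable (fun y : P → ℝ => gp x y i) := by
  unfold gp
  exact (uu_meas x _).sub (uu_meas x _)

theorem gp_abs (x : P → ℤ) (y : P → ℝ) (k l : ℕ) :
    |gp x y k * gp x y l| ≤ 4 * ∑ v, y v ^ 2 := by
  have h1 := uu_sq_le x y (k + 1)
  have h2 := uu_sq_le x y k
  have h3 := uu_sq_le x y (l + 1)
  have h4 := uu_sq_le x y l
  have hk : gp x y k ^ 2 ≤ 4 * ∑ v, y v ^ 2 := by
    unfold gp
    nlinarith [sq_nonneg (uu x y (k + 1) + uu x y k)]
  have hl : gp x y l ^ 2 ≤ 4 * ∑ v, y v ^ 2 := by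
    unfold gp
    nlinarith [sq_nonneg (uu x y (l + 1) + uu x y l)]
  rw [abs_le]
  constructor
  · nlinarith [sq_nonneg (gp x y k + gp x y l)]
  · nlinarith [sq_nonneg (gp x y k - gp x y l)]

theorem sumsq_int {ρ : (P → ℝ) → ℝ} {s : ℝ} (h : Sy1 ρ) (hm : Mom2 ρ s) :
    Integrable (fun x : P → ℝ => (∑ v, x v ^ 2) * ρ x) := by
  have e : (fun x : P → ℝ => (∑ v, x v ^ 2) * ρ x) = fun x : P → ℝ => ∑ v, x v ^ 2 * ρ x := by
    funext x; rw [Finset.sum_mul]
  rw [e]
  exact integrable_finsetSum _ fun v _ => sq_int h hm v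

theorem gp_int {ρ : (P → ℝ) → ℝ} {s : ℝ} (h : Sy1 ρ) (hm : Mom2 ρ s) (x : P → ℤ) (k l : ℕ) :
    Integrable (fun y : P → ℝ => gp x y k * gp x y l * ρ y) := by
  refine Integrable.mono' ((sumsq_int h hm).const_mul 4)
    (((gp_meas x k).mul (gp_meas x l)).mul h.meas).aestronglyMeasurable
    (Eventually.of_forall fun y => ?_)
  rw [Real.norm_eq_abs, abs_mul, abs_of_nonneg (h.nonneg y), ← mul_assoc]
  exact mul_le_mul_of_nonneg_right (gp_abs x y k l) (h.nonneg y)

theorem mem_Si {M : ℕ} {z : ℤ} : z ∈ Si M ↔ (-(2 * M : ℤ) < z ∧ z < 2 * M) ∧ Odd z := by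
  unfold Si
  simp [Finset.mem_filter, Finset.mem_Ioo]

theorem sum_uu_sq (x : P → ℤ)
    (hlab : ∀ z ∈ Si (Fintype.card P), sv x (lab x z) = z) (y : P → ℝ) :
    ∑ i ∈ Finset.range (Fintype.card P), uu x y (i + 1) ^ 2 = ∑ v, y v ^ 2 := by
  have h1 : ∀ i : ℕ, uu x y (i + 1) ^ 2 =
      (fun i : ℕ => y (lab x (2 * ((i + 1 : ℕ) : ℤ) - 1)).1 ^ 2) i := by
    intro i
    unfold uu sv
    rw [if_neg (Nat.succ_ne_zero i)]
    dsimp only
    split_ifs
    · rfl
    · rw [neg_sq]
  rw [Finset.sum_congr rfl (fun i _ => h1 i), ← Fin.sum_univ_eq_sum_range]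
  have hb : Function.Bijective
      (fun i : Fin (Fintype.card P) => (lab x (2 * (((i : ℕ) + 1 : ℕ) : ℤ) - 1)).1) := by
    rw [Fintype.bijective_iff_injective_and_card]
    refine ⟨?_, by simp⟩
    intro i j hij
    dsimp only at hij
    have hi := hlab (2 * (((i : ℕ) + 1 : ℕ) : ℤ) - 1) (mem_Si.2 ⟨by
      have := i.2; constructor <;> push_cast <;> omega, ⟨(i : ℕ), by push_cast; ring⟩⟩)
    have hj := hlab (2 * (((j : ℕ) + 1 : ℕ) : ℤ) - 1) (mem_Si.2 ⟨by
      have := j.2; constructor <;> push_cast <;> omega, ⟨(j : ℕ), by push_cast; ring⟩⟩)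
    unfold sv at hi hj
    rw [← hij] at hj
    apply Fin.ext
    split_ifs at hi hj <;> push_cast at hi hj <;> omega
  exact hb.sum_comp (fun v => y v ^ 2)

end

theorem t_GAP (hCH0 : S_CH0) (hSPM : S_SPM) (hRF : S_RF) (hGP1 : S_GP1) (hGP2 : S_GP2)
    (hGSQ : S_GSQ) : S_GAP := by
  intro P _ _ _ ρ s x l hρ hs hm hx hl
  classical
  have hN : 0 < ((XX P).card : ℝ) := by exact_mod_cast Finset.card_pos.2 ⟨x, hx⟩
  have hn1 : 1 ≤ Fintype.card P := Fintype.card_pos
  have hn0 : (0 : ℝ) < Fintype.card P := by exact_mod_cast hn1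
  have hop : MeasurableSet (Ch x) := ((hCH0 P).1 x hx).measurableSet
  obtain ⟨_, hlab, _, _, _, _, _, _, _, hpos, _⟩ := hRF P x 0 hx hn1
  have hsq : ∫ y in Ch x, (∑ v, y v ^ 2) * ρ y ≤ Fintype.card P * s / (XX P).card := by
    have h1 := spm_real hSPM hρ (fun y => ∑ v, y v ^ 2)
      (fun y => Finset.sum_nonneg fun v _ => sq_nonneg _)
      (Finset.measurable_sum _ fun v _ => (measurable_pi_apply v).pow_const 2)
      (by
        intro σ a b hab
        rw [← Equiv.sum_comp σ (fun v => a v ^ 2)]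
        refine Finset.sum_congr rfl fun i _ => ?_
        rw [← sq_abs (b i), hab i, sq_abs]) x hx
    have h2 : ∫ y : P → ℝ, (∑ v, y v ^ 2) * ρ y ≤ Fintype.card P * s := by
      have e : (fun y : P → ℝ => (∑ v, y v ^ 2) * ρ y) = fun y : P → ℝ => ∑ v, y v ^ 2 * ρ y := by
        funext y; rw [Finset.sum_mul]
      rw [e, integral_finsetSum _ fun v _ => sq_int hρ hm v]
      calc ∑ v : P, ∫ y : P → ℝ, y v ^ 2 * ρ y ≤ ∑ v : P, s :=
            Finset.sum_le_sum fun v _ => sq_le hρ hs hm v
        _ = Fintype.card P * s := by simp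
    rw [le_div_iff₀ hN, mul_comm, h1]
    exact h2
  have hA2 : ∫ y in Ch x, (∑ i ∈ Finset.range (Fintype.card P), uu x y (i + 1)) ^ 2 * ρ y ≤
      (Fintype.card P : ℝ) ^ 2 * s / (XX P).card := by
    have hAm : Measurable fun y : P → ℝ => ∑ i ∈ Finset.range (Fintype.card P), uu x y (i + 1) :=
      Finset.measurable_sum _ fun i _ => uu_meas x _
    have hle : ∀ y : P → ℝ, (∑ i ∈ Finset.range (Fintype.card P), uu x y (i + 1)) ^ 2 ≤
        Fintype.card P * ∑ v, y v ^ 2 := by
      intro y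
      have := sq_sum_le_card_mul_sum_sq (s := Finset.range (Fintype.card P))
        (f := fun i => uu x y (i + 1))
      rw [Finset.card_range, sum_uu_sq x hlab y] at this
      exact this
    calc ∫ y in Ch x, (∑ i ∈ Finset.range (Fintype.card P), uu x y (i + 1)) ^ 2 * ρ y
        ≤ ∫ y in Ch x, (Fintype.card P : ℝ) * ((∑ v, y v ^ 2) * ρ y) := by
          refine setIntegral_mono ?_ ((sumsq_int hρ hm).const_mul _).integrableOn ?_
          · refine Integrable.integrableOn ?_
            refine Integrable.mono' ((sumsq_int hρ hm).const_mul (Fintype.card P : ℝ))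
              ((hAm.pow_const 2).mul hρ.meas).aestronglyMeasurable
              (Eventually.of_forall fun y => ?_)
            rw [Real.norm_eq_abs, abs_mul, abs_of_nonneg (hρ.nonneg y),
              abs_of_nonneg (sq_nonneg _), ← mul_assoc]
            exact mul_le_mul_of_nonneg_right (hle y) (hρ.nonneg y)
          · intro y
            dsimp only
            rw [← mul_assoc]
            exact mul_le_mul_of_nonneg_right (hle y) (hρ.nonneg y)
      _ = Fintype.card P * ∫ y in Ch x, (∑ v, y v ^ 2) * ρ y := integral_const_mul _ _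
      _ ≤ Fintype.card P * (Fintype.card P * s / (XX P).card) :=
          mul_le_mul_of_nonneg_left hsq hn0.le
      _ = (Fintype.card P : ℝ) ^ 2 * s / (XX P).card := by ring
  have key := hGSQ (Fintype.card P)
    (fun k l => if k < Fintype.card P ∧ l < Fintype.card P then qq ρ x k l else 0)
    ((Fintype.card P : ℝ) ^ 2 * s / (XX P).card) hn1 (by positivity)
    (by
      intro k l
      by_cases h : k < Fintype.card P ∧ l < Fintype.card P
      · rw [if_pos h, if_pos h.symm]
        unfold qq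
        refine integral_congr_ae (Eventually.of_forall fun y => ?_)
        dsimp only
        ring
      · rw [if_neg h, if_neg fun h' => h h'.symm])
    (by
      intro k l
      split_ifs with h
      · unfold qq
        exact setIntegral_nonneg hop fun y hy =>
          mul_nonneg (mul_nonneg (hpos y hy k h.1).le (hpos y hy l h.2).le) (hρ.nonneg y)
      · exact le_rfl)
    (by
      intro k hk l hl h1 h2
      rw [if_pos ⟨hk, hl⟩, if_pos ⟨by omega, hl⟩]
      exact (hGP1 P ρ s x k hρ hm hx hk).1 l hl h1 h2)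
    (by
      intro k hk
      rw [if_pos ⟨hk, hk⟩, if_pos ⟨by omega, hk⟩]
      exact (hGP1 P ρ s x k hρ hm hx hk).2)
    (by
      intro k hk l hl h1 h2
      rw [if_pos ⟨Nat.lt_of_succ_lt hk, hl⟩, if_pos ⟨hk, hl⟩]
      exact (hGP2 P ρ s x k hρ hm hx hk).1 l hl h1 h2)
    (by
      intro k hk
      rw [if_pos ⟨Nat.lt_of_succ_lt hk, Nat.lt_of_succ_lt hk⟩, if_pos ⟨Nat.lt_of_succ_lt hk, hk⟩]
      exact (hGP2 P ρ s x k hρ hm hx hk).2)
    (by
      intro l hl
      rw [if_pos ⟨hl, hl⟩]
      have e1 : ∑ k ∈ Finset.range (Fintype.card P), ((Fintype.card P : ℝ) - k) *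
          (if k < Fintype.card P ∧ l < Fintype.card P then qq ρ x k l else 0) =
          ∫ y in Ch x, (∑ i ∈ Finset.range (Fintype.card P), uu x y (i + 1)) * gp x y l * ρ y := by
        have e2 : (fun y : P → ℝ =>
            (∑ i ∈ Finset.range (Fintype.card P), uu x y (i + 1)) * gp x y l * ρ y) =
            fun y : P → ℝ => ∑ k ∈ Finset.range (Fintype.card P),
              ((Fintype.card P : ℝ) - k) * (gp x y k * gp x y l * ρ y) := by
          funext y
          rw [← abel (fun i => uu x y i) (by simp [uu]) (Fintype.card P), Finset.sum_mul,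
            Finset.sum_mul]
          refine Finset.sum_congr rfl fun k _ => ?_
          unfold gp
          ring
        rw [e2, integral_finsetSum _ fun k _ =>
          ((gp_int hρ hm x k l).const_mul _).integrableOn]
        refine Finset.sum_congr rfl fun k hk => ?_
        rw [if_pos ⟨Finset.mem_range.1 hk, hl⟩, integral_const_mul]
        rfl
      rw [e1]
      have hAint : Integrable (fun y : P → ℝ =>
          (∑ i ∈ Finset.range (Fintype.card P), uu x y (i + 1)) ^ 2 * ρ y) := by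
        have e3 : (fun y : P → ℝ =>
            (∑ i ∈ Finset.range (Fintype.card P), uu x y (i + 1)) ^ 2 * ρ y) =
            fun y : P → ℝ => ∑ k ∈ Finset.range (Fintype.card P),
              ∑ k' ∈ Finset.range (Fintype.card P),
              (((Fintype.card P : ℝ) - k) * ((Fintype.card P : ℝ) - k')) *
                (gp x y k * gp x y k' * ρ y) := by
          funext y
          rw [← abel (fun i => uu x y i) (by simp [uu]) (Fintype.card P), sq,
            Finset.sum_mul_sum, Finset.sum_mul]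
          refine Finset.sum_congr rfl fun k _ => ?_
          rw [Finset.sum_mul]
          refine Finset.sum_congr rfl fun k' _ => ?_
          unfold gp
          ring
        rw [e3]
        exact integrable_finsetSum _ fun k _ => integrable_finsetSum _ fun k' _ =>
          (gp_int hρ hm x k k').const_mul _
      have hABint : Integrable (fun y : P → ℝ =>
          (∑ i ∈ Finset.range (Fintype.card P), uu x y (i + 1)) * gp x y l * ρ y) := by
        have e2 : (fun y : P → ℝ =>
            (∑ i ∈ Finset.range (Fintype.card P), uu x y (i + 1)) * gp x y l * ρ y) =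
            fun y : P → ℝ => ∑ k ∈ Finset.range (Fintype.card P),
              ((Fintype.card P : ℝ) - k) * (gp x y k * gp x y l * ρ y) := by
          funext y
          rw [← abel (fun i => uu x y i) (by simp [uu]) (Fintype.card P), Finset.sum_mul,
            Finset.sum_mul]
          refine Finset.sum_congr rfl fun k _ => ?_
          unfold gp
          ring
        rw [e2]
        exact integrable_finsetSum _ fun k _ => (gp_int hρ hm x k l).const_mul _
      have hBint : Integrable (fun y : P → ℝ => gp x y l ^ 2 * ρ y) := by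
        have e : (fun y : P → ℝ => gp x y l ^ 2 * ρ y) =
            fun y : P → ℝ => gp x y l * gp x y l * ρ y := by funext y; ring
        rw [e]; exact gp_int hρ hm x l l
      have hcs := cs (volume.restrict (Ch x))
        (fun y : P → ℝ => ∑ i ∈ Finset.range (Fintype.card P), uu x y (i + 1))
        (fun y : P → ℝ => gp x y l) ρ hρ.nonneg hAint.integrableOn hBint.integrableOn
        hABint.integrableOn
      have eB : ∫ y in Ch x, gp x y l ^ 2 * ρ y = qq ρ x l l := by
        unfold qq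
        refine integral_congr_ae (Eventually.of_forall fun y => ?_)
        dsimp only
        ring
      have hq0 : 0 ≤ qq ρ x l l := by
        rw [← eB]
        exact integral_nonneg fun y => mul_nonneg (sq_nonneg _) (hρ.nonneg y)
      rw [eB] at hcs
      exact hcs.trans (mul_le_mul_of_nonneg_right hA2 hq0)) l hl
  rw [if_pos ⟨hl, hl⟩] at key
  refine key.trans (le_of_eq ?_)
  have hnl : (0 : ℝ) < (Fintype.card P : ℝ) - l := by
    have : (l : ℝ) < Fintype.card P := by exact_mod_cast hl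
    linarith
  field_simp

end Run7.h340.KF
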